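import Mathlib
import Pool.Agent.L0h73.CB.Periods

/-!
# Corner-free sets have few approximate periods in the directions of their lines

Let `A ⊆ (F_2^n)^2` be corner-free, let `L` be the family of all its rows, or of all its columns, or
of all its diagonals (`IsLines`), and let `D` be a set of vectors in `F_2^n`. An exit is a pair of a
point of `A` and a vector in `D` such that the neighbour of the point in this direction, in the same
line, is not in `A`; `exits` is the number of these pairs.

(1) The vectors `v` such that at most `|A| / (6 n)` points of `A` have their neighbour in the direction
`v` outside of `A` span a subspace with at most `2 * 4 ^ n / |A|` elements.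

(2) If for a set `D` of vectors at most a share `1 / (12 n)` of all the pairs of a point of `A` and a
vector in `D` are exits then `|A| ≤ 4 * 4 ^ n / |D|`.

So there is a power saving bound for the corner-free sets with at least `2 ^ (ε n)` approximate periods
in the direction of the rows: the error may be a share `1 / (6 n)` of the set, and nothing is assumed
about the structure of the set of the periods.

Proof. If `u` is in the span `U` of the approximate periods, then it is a sum of at most `n` of them, so
that at most `|A| / 6` points of `A` have their neighbour in the direction `u` outside of `A`. Hence for
at least half of the points of `A` more than two thirds of the translates by elements of `U` are in `A`.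
Two such points cannot be in the same place of two different lines `L s`, `L (s + z)` with `z ∈ U`:
some `w ∈ U` would give a corner `y + w ∈ L s`, `y + w + z ∈ L s`, `y + w ∈ L (s + z)`. So there are at
most `4 ^ n / |U|` of them.
-/

set_option autoImplicit false

namespace Pool.Agent.Results.MP_db4732_co.ApproximatePeriods

open Finset Pool.Agent.W856.Corner Pool.Agent.L0h73.CB

theorem result (n : ℕ) (A : Finset (V n × V n)) (L : V n → Set (V n)) (hA : CornerFree A)
    (hL : IsLines A L) :
    A.card * Nat.card (Submodule.span (ZMod 2) {v : V n | 6 * n * exits L {v} ≤ A.card}) ≤
      2 * 4 ^ n ∧
    ∀ D : Finset (V n), 12 * n * exits L D ≤ A.card * D.card → A.card * D.card ≤ 4 * 4 ^ n :=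
  ⟨good_span hA hL, fun D h => periods_bound hA hL D h⟩

end Pool.Agent.Results.MP_db4732_co.ApproximatePeriods
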