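import Pool.Agent.L0h99.CF.Data5
import Pool.Agent.L0h99.CF.Growth

/-!
# Corner-free sets in `(F_2^n)²` beyond the bound `(2√3)^n` of the integer lifts

For all large `n` there is a corner-free `A ⊆ (F_2^n)²` with `|A| ≥ 4^{(1 - 19/184) n} > 3.4664^n`,
and `(F_2^n)²` is a union of at most `(4/3.4664)^n` corner-free sets; `3.4664 > 2√3 = 3.46410…`.
So a power-saving bound with saving `c` can only hold with `c ≤ 19/184 < 0.10327`.

The proof is a certificate: `454` cells `(x, y)` of `(F_2^5)²` in an order in which every cell, when it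
is removed, is free in one of its three roles in corners; and weights of the `32` rows, columns and
antidiagonals, with the inequality `∑ (a_x b_y c_{x+y})^55 > 1 = ∑ a^92 = ∑ b^92 = ∑ c^92` (in integers).
-/

set_option autoImplicit false

namespace Pool.Agent.Results.MP_db4732_co.BeyondGaussianLifts

/-- `A ⊆ F_2^n × F_2^n` contains no nontrivial corner `(x,y), (x,y+z), (x+z,y)`, `z ≠ 0`. -/
def NoCorner {n : ℕ} (A : Finset ((Fin n → ZMod 2) × (Fin n → ZMod 2))) : Prop :=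
  ∀ x y z : Fin n → ZMod 2, z ≠ 0 → ¬ ((x, y) ∈ A ∧ (x, y + z) ∈ A ∧ (x + z, y) ∈ A)

lemma base_eq : ((2 : ℝ) ^ ((165 : ℝ) / 92)) ^ 92 = 2 ^ (3 * 55) := by
  rw [← Real.rpow_natCast, ← Real.rpow_mul (by norm_num), ← Real.rpow_natCast]
  congr 1
  norm_num

lemma base_gt : (3.4664 : ℝ) < (2 : ℝ) ^ ((165 : ℝ) / 92) := by
  apply lt_of_pow_lt_pow_left₀ 92 (by positivity)
  rw [base_eq]
  norm_num

lemma base_le : (2 : ℝ) ^ ((165 : ℝ) / 92) ≤ 4 := by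
  calc (2 : ℝ) ^ ((165 : ℝ) / 92) ≤ (2 : ℝ) ^ (2 : ℝ) :=
        Real.rpow_le_rpow_of_exponent_le (by norm_num) (by norm_num)
    _ = 4 := by norm_num

lemma four_rpow (t : ℝ) : (4 : ℝ) ^ t = (2 : ℝ) ^ (2 * t) := by
  rw [Real.rpow_mul (by norm_num)]
  norm_num

lemma growth : ∃ n0 : ℕ, ∀ n : ℕ, n0 ≤ n →
    ∃ A : Finset ((Fin n → ZMod 2) × (Fin n → ZMod 2)),
      NoCorner A ∧ ((2 : ℝ) ^ ((165 : ℝ) / 92)) ^ n ≤ (A.card : ℝ) :=
  Pool.Agent.L0h99.CF.growth_of_cert 92 55 (by norm_num) _ (by positivity) (le_of_eq base_eq)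
    Pool.Agent.L0h99.CF.Data5.main_cert

/-- **Theorem.** (1) For all large `n` there is a corner-free set `A ⊆ (F_2^n)²` with
`|A| ≥ 4^{(1 - 19/184) n}`. (2) For all large `n` the group `(F_2^n)²` is a union of at most
`(4/3.4664)^n` corner-free sets, one of which has at least `3.4664^n` elements. (3) The constant
`3.4664` is larger than `2√3`. (4) If `|A| ≤ C 4^{(1-c)n}` for all `n ≥ 1` and all corner-free
`A ⊆ (F_2^n)²`, then `c ≤ 19/184`. -/
theorem result :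
    (∃ n0 : ℕ, ∀ n : ℕ, n0 ≤ n → ∃ A : Finset ((Fin n → ZMod 2) × (Fin n → ZMod 2)),
      NoCorner A ∧ (4 : ℝ) ^ ((1 - 19 / 184 : ℝ) * n) ≤ (A.card : ℝ)) ∧
    (∃ n0 : ℕ, ∀ n : ℕ, n0 ≤ n →
      ∃ 𝒜 : Finset (Finset ((Fin n → ZMod 2) × (Fin n → ZMod 2))),
        (∀ A ∈ 𝒜, NoCorner A) ∧ (𝒜.card : ℝ) ≤ (4 / 3.4664) ^ n ∧ (∀ p, ∃ A ∈ 𝒜, p ∈ A) ∧
          ∃ A ∈ 𝒜, (3.4664 : ℝ) ^ n ≤ (A.card : ℝ)) ∧
    2 * Real.sqrt 3 < 3.4664 ∧
    (∀ C c : ℝ, (∀ n : ℕ, 1 ≤ n → ∀ A : Finset ((Fin n → ZMod 2) × (Fin n → ZMod 2)),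
      NoCorner A → (A.card : ℝ) ≤ C * (4 : ℝ) ^ ((1 - c) * n)) → c ≤ 19 / 184) := by
  refine ⟨?_, ?_, ?_, ?_⟩
  · obtain ⟨n0, h⟩ := growth
    refine ⟨n0, fun n hn => ?_⟩
    obtain ⟨A, hA, hc⟩ := h n hn
    refine ⟨A, hA, le_trans (le_of_eq ?_) hc⟩
    rw [four_rpow, ← Real.rpow_natCast, ← Real.rpow_mul (by norm_num)]
    congr 1
    ring
  · exact Pool.Agent.L0h99.CF.cover_of_growth _ 3.4664 (by norm_num) base_gt base_le growth
  · have h : Real.sqrt 3 < 1.7332 := by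
      rw [Real.sqrt_lt' (by norm_num)]
      norm_num
    linarith
  · intro C c hs
    have h := Pool.Agent.L0h99.CF.saving_of_growth _ (lt_trans (by norm_num) base_gt) growth C c hs
    rw [four_rpow, Real.rpow_le_rpow_left_iff (by norm_num)] at h
    linarith

end Pool.Agent.Results.MP_db4732_co.BeyondGaussianLifts
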