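import Pool.Agent.H69d.Main

/-!
# Corner-free sets with block-symmetric lines

A set `S ⊆ F_2^n` is block-symmetric with `D` classes if the coordinates can be divided into `D`
classes such that `S` is invariant under the permutations of the coordinates which preserve the
classes; that is, membership in `S` depends only on the numbers of ones in the classes. Examples:
Hamming spheres, Hamming balls and all functions of the distance from an arbitrary centre (`D = 2`),
functions of the value of an additive statistic `∑ y_i w_i` with at most `D` different weights `w_i`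
in an arbitrary abelian group (so threshold functions with at most `D` different weights), and
Boolean combinations of such sets.

We prove a power-saving bound for the corner-free sets `A ⊆ (F_2^n)^2` such that every row (or every
column, or every diagonal) is a union of `T` sets `S ∩ C`, where `S` is block-symmetric with `D`
classes and every point of `C` has a certificate of degree at most `k` in `C` (for example `C` may be
a union of any number of subcubes of codimension at most `k`, or given by a polynomial inequality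
`P ≠ 0` with `deg P ≤ k`). The classes, the centres and the polynomials may depend on the line in an
arbitrary way. The bound is about `T n 4^n exp (- n / (1024 D^2))`, and it is nontrivial for `D` up
to a small multiple of `n^(1/4)`, all `k ≤ n / (64 D) - 2` and all `T ≤ exp (c n / D^2)`.

Proof. A block-symmetric set contains with a typical point a flat of dimension about `n / 2`, whose
directions are pairs of coordinates in a class with different values; this is just not enough for the
dimension argument for points on flats. So we restrict `A` to the cosets of the spaces of the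
vectors which take equal values on the two coordinates of each of `m ≈ n / 2` disjoint pairs. The
pairs come from the `2 m + 1` near-perfect matchings `i ↔ 2 s - i` modulo `2 m + 1`; every partition
into `D` classes has about `m / D` pairs inside the classes for some `s`, and this is where we win:
such a pair with different values may be flipped for free. All other pairs are matched with pairs of
the opposite kind. This gives certificates of degree at most `(1/2 - 1/(32 D)) m` on the cosets for
all points but a fraction `4^(D^2) exp (- m / (128 D^2))`.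
-/

set_option autoImplicit false

namespace Pool.Agent.Results.MP_db4732_co.BlockSymmetricLines

open Finset

/-- `F_2^n` -/
abbrev V (n : ℕ) := Fin n → ZMod 2

/-- `A` contains no nontrivial corner `(x, y), (x, y + z), (x + z, y)`. -/
def CornerFree {n : ℕ} (A : Finset (V n × V n)) : Prop :=
  ∀ x y z : V n, (x, y) ∈ A → (x, y + z) ∈ A → (x + z, y) ∈ A → z = 0

/-- The coordinates can be divided into `D` classes such that membership in `S` depends only on the
numbers of ones in the classes. -/
def BlockSymmetric {n : ℕ} (D : ℕ) (S : Set (V n)) : Prop :=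
  ∃ col : Fin n → Fin D, ∀ y y' : V n,
    (∀ j, (univ.filter (fun i => col i = j ∧ y i = 1)).card =
      (univ.filter (fun i => col i = j ∧ y' i = 1)).card) → y ∈ S → y' ∈ S

/-- the functions `{0,1}^n → K` which are polynomials of degree at most `k` over `K`, i.e. the span
of the monomials `∏_{i ∈ I} y_i`, `|I| ≤ k` -/
def polys (K : Type) [Field K] (n k : ℕ) : Submodule K (V n → K) :=
  Submodule.span K {f | ∃ I : Finset (Fin n), I.card ≤ k ∧
    f = fun y => if ∀ i ∈ I, y i = 1 then 1 else 0}

/-- Every point `y` of `C` has a certificate of degree at most `k`: a polynomial of degree at most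
`k` which is nonzero at `y` and vanishes outside `C`. -/
def Certified (K : Type) [Field K] {n : ℕ} (k : ℕ) (C : Set (V n)) : Prop :=
  ∀ y ∈ C, ∃ h ∈ polys K n k, h y ≠ 0 ∧ ∀ y', h y' ≠ 0 → y' ∈ C

/-- the directions of the three families of lines -/
inductive Direction : Type
  | row : Direction
  | column : Direction
  | diagonal : Direction

/-- the rows `{y : (s, y) ∈ A}`, the columns `{x : (x, s) ∈ A}` and the diagonals
`{y : (s + y, y) ∈ A}` of `A` -/
def line {n : ℕ} (A : Finset (V n × V n)) : Direction → V n → Set (V n)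
  | .row, s => {y | (s, y) ∈ A}
  | .column, s => {x | (x, s) ∈ A}
  | .diagonal, s => {y | (s + y, y) ∈ A}

/-- the line of the given direction through the point `a` has the number `number k a` -/
def number {n : ℕ} : Direction → V n × V n → V n
  | .row, a => a.1
  | .column, a => a.2
  | .diagonal, a => a.1 + a.2

/-- the point `a` on its line of the given direction -/
def place {n : ℕ} : Direction → V n × V n → V n
  | .row, a => a.2
  | .column, a => a.1
  | .diagonal, a => a.2

/-- Every line of the given direction contains `T` sets of the form `S ∩ C`, where `S` is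
block-symmetric with `D` classes and `C` has certificates of degree at most `k`, and every point of
`Q` is in one of these subsets of its line. (For `Q = A`: every line is the union of the `T`
sets.) -/
def Covered (K : Type) [Field K] {n : ℕ} (D k T : ℕ) (A : Finset (V n × V n)) (dir : Direction)
    (Q : Finset (V n × V n)) : Prop :=
  ∃ S C : V n → Fin T → Set (V n), (∀ s t, BlockSymmetric D (S s t)) ∧
    (∀ s t, Certified K k (C s t)) ∧ (∀ s t, S s t ∩ C s t ⊆ line A dir s) ∧
    ∀ a ∈ Q, ∃ t, place dir a ∈ S (number dir a) t ∩ C (number dir a) t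

lemma covered_iff (K : Type) [Field K] {n : ℕ} (D k T : ℕ) (A : Finset (V n × V n))
    (dir : Direction) (Q : Finset (V n × V n)) (h : Covered K D k T A dir Q) :
    ∃ dir', Pool.Agent.H69d.CoversIn K D k T A dir' Q := by
  cases dir with
  | row => exact ⟨.row, h⟩
  | column => exact ⟨.column, h⟩
  | diagonal => exact ⟨.diagonal, h⟩

lemma explicit (K : Type) [Field K] {n D : ℕ} (hD : 1 ≤ D) (k T : ℕ)
    (hn : 64 * D * (k + 1) + 2 ≤ n) (A : Finset (V n × V n)) (hA : CornerFree A)
    (dir : Direction) (Q : Finset (V n × V n)) (h : Covered K D k T A dir Q) :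
    (Q.card : ℝ) ≤ T * n * 4 ^ n * (Real.exp (-((n - 2) / (1024 * (D : ℝ) ^ 2))) +
      4 ^ (D ^ 2) * Real.exp (-((n - 2) / (256 * (D : ℝ) ^ 2)))) := by
  obtain ⟨dir', h'⟩ := covered_iff K D k T A dir Q h
  exact Pool.Agent.H69d.explicit_dir K hD k T hn A hA dir' Q h'

/-- the numerical part of the power saving -/
lemma numbers (D : ℕ) (hD : 1 ≤ D) (n : ℕ) :
    (n : ℝ) * 4 ^ n * (Real.exp (-((n - 2) / (1024 * (D : ℝ) ^ 2))) +
      4 ^ (D ^ 2) * Real.exp (-((n - 2) / (256 * (D : ℝ) ^ 2)))) ≤
    (1 + 4 ^ (D ^ 2)) * (2048 * (D : ℝ) ^ 2 * Real.exp 1) *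
      (4 : ℝ) ^ ((1 - 1 / (4096 * (D : ℝ) ^ 2)) * (n : ℝ)) := by
  have hD1 : (1 : ℝ) ≤ D := by exact_mod_cast hD
  have hD2 : (1 : ℝ) ≤ (D : ℝ) ^ 2 := one_le_pow₀ hD1
  obtain ⟨q, hq⟩ : ∃ q : ℝ, q = (D : ℝ) ^ 2 := ⟨_, rfl⟩
  rw [← hq] at hD2 ⊢
  have hq0 : 0 < q := by linarith
  have hn0 : (0 : ℝ) ≤ n := Nat.cast_nonneg n
  -- both exponentials are at most the first one, up to a constant
  have h1 : Real.exp (-((n - 2) / (1024 * q))) ≤ Real.exp 1 * Real.exp (-(n / (1024 * q))) := by
    rw [← Real.exp_add]
    apply Real.exp_le_exp.2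
    have e : -(((n : ℝ) - 2) / (1024 * q)) = 2 / (1024 * q) + -(n / (1024 * q)) := by ring
    rw [e]
    have : 2 / (1024 * q) ≤ 1 := by
      rw [div_le_one (by positivity)]
      linarith
    linarith
  have h2 : Real.exp (-((n - 2) / (256 * q))) ≤ Real.exp 1 * Real.exp (-(n / (1024 * q))) := by
    rw [← Real.exp_add]
    apply Real.exp_le_exp.2
    have e : -(((n : ℝ) - 2) / (256 * q)) = 2 / (256 * q) + -(n / (256 * q)) := by ring
    rw [e]
    have k1 : 2 / (256 * q) ≤ 1 := by
      rw [div_le_one (by positivity)]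
      linarith
    have k2 : (n : ℝ) / (1024 * q) ≤ n / (256 * q) := by
      apply div_le_div_of_nonneg_left hn0 (by positivity)
      linarith
    linarith
  have h3 : (n : ℝ) * Real.exp (-(n / (1024 * q))) ≤
      2048 * q * Real.exp (-(n / (2048 * q))) := by
    have k1 : (n : ℝ) / (2048 * q) ≤ Real.exp (n / (2048 * q)) := by
      have := Real.add_one_le_exp ((n : ℝ) / (2048 * q))
      linarith
    rw [div_le_iff₀ (by positivity)] at k1
    have k2 : Real.exp (-(n / (1024 * q))) =
        Real.exp (-(n / (2048 * q))) * Real.exp (-(n / (2048 * q))) := by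
      rw [← Real.exp_add]
      congr 1
      field_simp
      ring
    have k3 : Real.exp ((n : ℝ) / (2048 * q)) * Real.exp (-(n / (2048 * q))) = 1 := by
      rw [← Real.exp_add]; simp
    rw [k2]
    calc (n : ℝ) * (Real.exp (-(n / (2048 * q))) * Real.exp (-(n / (2048 * q))))
        ≤ Real.exp (n / (2048 * q)) * (2048 * q) *
          (Real.exp (-(n / (2048 * q))) * Real.exp (-(n / (2048 * q)))) :=
          mul_le_mul_of_nonneg_right k1 (by positivity)
      _ = (Real.exp (n / (2048 * q)) * Real.exp (-(n / (2048 * q)))) * (2048 * q) *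
          Real.exp (-(n / (2048 * q))) := by ring
      _ = _ := by rw [k3, one_mul]
  have h4 : (4 : ℝ) ^ n * Real.exp (-(n / (2048 * q))) ≤
      (4 : ℝ) ^ ((1 - 1 / (4096 * q)) * (n : ℝ)) := by
    have hl : Real.log 4 ≤ 2 := by
      have : Real.log 4 = 2 * Real.log 2 := by
        rw [show (4 : ℝ) = 2 ^ 2 by norm_num, Real.log_pow]
        norm_num
      rw [this]
      have := Real.log_two_lt_d9
      linarith
    have k1 : (4 : ℝ) ^ n = Real.exp (Real.log 4 * n) := by
      rw [← Real.rpow_natCast, Real.rpow_def_of_pos (by norm_num)]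
    rw [k1, Real.rpow_def_of_pos (by norm_num), ← Real.exp_add]
    apply Real.exp_le_exp.2
    have k2 : Real.log 4 * ((1 - 1 / (4096 * q)) * (n : ℝ)) =
        Real.log 4 * n - Real.log 4 * (n / (4096 * q)) := by ring
    have k3 : Real.log 4 * (n / (4096 * q)) ≤ 2 * (n / (4096 * q)) :=
      mul_le_mul_of_nonneg_right hl (by positivity)
    have k4 : 2 * ((n : ℝ) / (4096 * q)) = n / (2048 * q) := by
      field_simp
      ring
    rw [k2]
    linarith
  calc (n : ℝ) * 4 ^ n * (Real.exp (-((n - 2) / (1024 * q))) +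
      4 ^ (D ^ 2) * Real.exp (-((n - 2) / (256 * q))))
      ≤ (n : ℝ) * 4 ^ n * (Real.exp 1 * Real.exp (-(n / (1024 * q))) +
        4 ^ (D ^ 2) * (Real.exp 1 * Real.exp (-(n / (1024 * q))))) := by
        refine mul_le_mul_of_nonneg_left ?_ (by positivity)
        exact add_le_add h1 (mul_le_mul_of_nonneg_left h2 (by positivity))
    _ = (1 + 4 ^ (D ^ 2)) * Real.exp 1 * 4 ^ n * (n * Real.exp (-(n / (1024 * q)))) := by ring
    _ ≤ (1 + 4 ^ (D ^ 2)) * Real.exp 1 * 4 ^ n *
        (2048 * q * Real.exp (-(n / (2048 * q)))) :=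
        mul_le_mul_of_nonneg_left h3 (by positivity)
    _ = (1 + 4 ^ (D ^ 2)) * (2048 * q * Real.exp 1) *
        (4 ^ n * Real.exp (-(n / (2048 * q)))) := by ring
    _ ≤ _ := mul_le_mul_of_nonneg_left h4 (by positivity)

/-- the power saving for one direction -/
lemma saving (D : ℕ) (hD : 1 ≤ D) (K : Type) [Field K] {n : ℕ} (k T : ℕ)
    (hk : (k : ℝ) ≤ 1 / (4096 * (D : ℝ) ^ 2) * n)
    (A : Finset (V n × V n)) (hA : CornerFree A)
    (dir : Direction) (Q : Finset (V n × V n)) (h : Covered K D k T A dir Q) :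
    (Q.card : ℝ) ≤ ((1 + 4 ^ (D ^ 2)) * (2048 * (D : ℝ) ^ 2 * Real.exp 1) + 4) * T *
      (4 : ℝ) ^ ((1 - 1 / (4096 * (D : ℝ) ^ 2)) * (n : ℝ)) := by
  have hD1 : (1 : ℝ) ≤ D := by exact_mod_cast hD
  have hD2 : (1 : ℝ) ≤ (D : ℝ) ^ 2 := one_le_pow₀ hD1
  have hn0 : (0 : ℝ) ≤ n := Nat.cast_nonneg n
  by_cases hn : 200 * D ≤ n
  · have hnR : 200 * (D : ℝ) ≤ n := by exact_mod_cast hn
    have h1 : 64 * D * (k + 1) + 2 ≤ n := by
      have k1 : 64 * (D : ℝ) * k ≤ n / 64 := by
        calc 64 * (D : ℝ) * k ≤ 64 * (D : ℝ) * (1 / (4096 * (D : ℝ) ^ 2) * n) :=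
              mul_le_mul_of_nonneg_left hk (by positivity)
          _ = n / 64 / D := by field_simp; norm_num
          _ ≤ n / 64 := div_le_self (by positivity) hD1
      have k2 : 64 * (D : ℝ) * (k + 1) + 2 ≤ n := by
        have : 64 * (D : ℝ) * (k + 1) + 2 = 64 * (D : ℝ) * k + 64 * D + 2 := by ring
        rw [this]
        linarith
      exact_mod_cast k2
    have h2 := explicit K hD k T h1 A hA dir Q h
    have h3 := numbers D hD n
    have hT : (0 : ℝ) ≤ T := Nat.cast_nonneg T
    have h4 : (0 : ℝ) ≤ (4 : ℝ) ^ ((1 - 1 / (4096 * (D : ℝ) ^ 2)) * (n : ℝ)) := by positivity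
    calc (Q.card : ℝ) ≤ T * (n * 4 ^ n * (Real.exp (-((n - 2) / (1024 * (D : ℝ) ^ 2))) +
          4 ^ (D ^ 2) * Real.exp (-((n - 2) / (256 * (D : ℝ) ^ 2))))) := by
          refine h2.trans (le_of_eq ?_)
          ring
      _ ≤ T * ((1 + 4 ^ (D ^ 2)) * (2048 * (D : ℝ) ^ 2 * Real.exp 1) *
        (4 : ℝ) ^ ((1 - 1 / (4096 * (D : ℝ) ^ 2)) * (n : ℝ))) :=
          mul_le_mul_of_nonneg_left h3 hT
      _ ≤ T * ((1 + 4 ^ (D ^ 2)) * (2048 * (D : ℝ) ^ 2 * Real.exp 1) *
        (4 : ℝ) ^ ((1 - 1 / (4096 * (D : ℝ) ^ 2)) * (n : ℝ))) +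
          4 * T * (4 : ℝ) ^ ((1 - 1 / (4096 * (D : ℝ) ^ 2)) * (n : ℝ)) :=
          le_add_of_nonneg_right (by positivity)
      _ = _ := by ring
  · push Not at hn
    have hnR : (n : ℝ) ≤ 200 * D := by exact_mod_cast hn.le
    rcases Q.eq_empty_or_nonempty with hQ | ⟨a, ha⟩
    · rw [hQ, card_empty, Nat.cast_zero]
      positivity
    · have hT : 1 ≤ T := by
        obtain ⟨S, C, _, _, _, h5⟩ := h
        obtain ⟨t, _⟩ := h5 a ha
        exact Nat.one_le_iff_ne_zero.2 (fun h0 => by subst h0; exact t.elim0)
      have hTR : (1 : ℝ) ≤ T := by exact_mod_cast hT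
      have h1 : (Q.card : ℝ) ≤ 4 ^ n := by
        have : Q.card ≤ 4 ^ n := by
          refine (card_le_univ Q).trans (le_of_eq ?_)
          rw [Fintype.card_prod, Fintype.card_fun, ZMod.card, Fintype.card_fin, ← mul_pow]
          norm_num
        exact_mod_cast this
      have h2 : (4 : ℝ) ^ n ≤ 4 * (4 : ℝ) ^ ((1 - 1 / (4096 * (D : ℝ) ^ 2)) * (n : ℝ)) := by
        have k1 : (4 : ℝ) * (4 : ℝ) ^ ((1 - 1 / (4096 * (D : ℝ) ^ 2)) * (n : ℝ)) =
            (4 : ℝ) ^ (1 + (1 - 1 / (4096 * (D : ℝ) ^ 2)) * (n : ℝ)) := by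
          rw [Real.rpow_add (by norm_num), Real.rpow_one]
        rw [k1, ← Real.rpow_natCast]
        apply Real.rpow_le_rpow_of_exponent_le (by norm_num)
        have k2 : 1 / (4096 * (D : ℝ) ^ 2) * n ≤ 1 := by
          rw [one_div, inv_mul_le_iff₀ (by positivity)]
          nlinarith
        linarith
      have h3 : (0 : ℝ) ≤ (4 : ℝ) ^ ((1 - 1 / (4096 * (D : ℝ) ^ 2)) * (n : ℝ)) := by positivity
      have h4 : (0 : ℝ) ≤ (1 + 4 ^ (D ^ 2)) * (2048 * (D : ℝ) ^ 2 * Real.exp 1) := by positivity
      calc (Q.card : ℝ) ≤ 4 * (4 : ℝ) ^ ((1 - 1 / (4096 * (D : ℝ) ^ 2)) * (n : ℝ)) :=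
            h1.trans h2
        _ ≤ ((1 + 4 ^ (D ^ 2)) * (2048 * (D : ℝ) ^ 2 * Real.exp 1) + 4) * 1 *
          (4 : ℝ) ^ ((1 - 1 / (4096 * (D : ℝ) ^ 2)) * (n : ℝ)) := by
            rw [mul_one]
            exact mul_le_mul_of_nonneg_right (by linarith) h3
        _ ≤ _ := by
            refine mul_le_mul_of_nonneg_right ?_ h3
            exact mul_le_mul_of_nonneg_left hTR (by linarith)

/-! ### Examples of block-symmetric sets -/

/-- sets decided by an additive statistic with at most `D` different weights -/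
lemma additive (n D : ℕ) (H : Type) [AddCommMonoid H] (w : Fin n → H) (P : Set H)
    (f : Fin n → Fin D) (hf : ∀ i j, f i = f j → w i = w j) :
    BlockSymmetric D {y : V n | (∑ i, if y i = 1 then w i else 0) ∈ P} := by
  classical
  refine ⟨f, fun y y' h hy => ?_⟩
  have key : ∀ u : V n, (∑ i, if u i = 1 then w i else 0) =
      ∑ j : Fin D, (univ.filter (fun i => f i = j ∧ u i = 1)).card •
        (if h : ∃ i, f i = j then w h.choose else 0) := by
    intro u
    rw [← sum_fiberwise univ f]
    refine sum_congr rfl (fun j _ => ?_)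
    rw [← sum_filter, filter_filter]
    rw [sum_congr rfl (g := fun _ => (if h : ∃ i, f i = j then w h.choose else 0)),
      sum_const]
    intro i hi
    have hj : ∃ i, f i = j := ⟨i, (mem_filter.1 hi).2.1⟩
    rw [dif_pos hj]
    exact hf _ _ ((mem_filter.1 hi).2.1.trans hj.choose_spec.symm)
  have e : (∑ i, if y i = 1 then w i else 0) = ∑ i, if y' i = 1 then w i else 0 := by
    rw [key, key]
    exact sum_congr rfl (fun j _ => by rw [h j])
  show (∑ i, if y' i = 1 then w i else 0) ∈ P
  rw [← e]
  exact hy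

/-- translates -/
lemma translate (n D : ℕ) (S : Set (V n)) (c : V n) (hS : BlockSymmetric D S) :
    BlockSymmetric (D * 2) {y : V n | y + c ∈ S} := by
  classical
  obtain ⟨f, hf⟩ := hS
  let g : Fin n → Fin D × Fin 2 := fun i => (f i, if c i = 1 then 1 else 0)
  refine ⟨fun i => finProdFinEquiv (g i), fun y y' h hy => ?_⟩
  have h' : ∀ q : Fin D × Fin 2, (univ.filter (fun i => g i = q ∧ y i = 1)).card =
      (univ.filter (fun i => g i = q ∧ y' i = 1)).card := by
    intro q
    have := h (finProdFinEquiv q)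
    simpa only [EmbeddingLike.apply_eq_iff_eq] using this
  refine hf (y + c) (y' + c) (fun j => ?_) hy
  have key : ∀ u : V n, (univ.filter (fun i => f i = j ∧ (u + c) i = 1)).card +
      (univ.filter (fun i => g i = (j, 1) ∧ u i = 1)).card =
      (univ.filter (fun i => g i = (j, 0) ∧ u i = 1)).card +
      (univ.filter (fun i => g i = (j, 1))).card := by
    intro u
    rw [card_filter, card_filter, card_filter, card_filter, ← sum_add_distrib,
      ← sum_add_distrib]
    refine sum_congr rfl (fun i _ => ?_)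
    have e01 : ¬ ((0 : ZMod 2) = 1) := by decide
    have e11 : (1 : ZMod 2) + 1 = 0 := by decide
    rcases Pool.Agent.R288.PC.zmod2 (c i) with hc | hc <;>
      rcases Pool.Agent.R288.PC.zmod2 (u i) with hu | hu <;>
      by_cases hj : f i = j <;> simp [g, hc, hu, hj, e01, e11]
  have k1 := key y
  have k2 := key y'
  rw [h' (j, 1), h' (j, 0)] at k1
  omega

/-- Boolean combinations -/
lemma combine (n D E : ℕ) (S S' : Set (V n)) (Φ : Prop → Prop → Prop)
    (hS : BlockSymmetric D S) (hS' : BlockSymmetric E S') :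
    BlockSymmetric (D * E) {y : V n | Φ (y ∈ S) (y ∈ S')} := by
  classical
  obtain ⟨f, hf⟩ := hS
  obtain ⟨g, hg⟩ := hS'
  refine ⟨fun i => finProdFinEquiv (f i, g i), fun y y' h hy => ?_⟩
  have h' : ∀ q : Fin D × Fin E, (univ.filter (fun i => (f i, g i) = q ∧ y i = 1)).card =
      (univ.filter (fun i => (f i, g i) = q ∧ y' i = 1)).card := by
    intro q
    have := h (finProdFinEquiv q)
    simpa only [EmbeddingLike.apply_eq_iff_eq] using this
  have h1 : ∀ j, (univ.filter (fun i => f i = j ∧ y i = 1)).card =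
      (univ.filter (fun i => f i = j ∧ y' i = 1)).card := by
    intro j
    have key : ∀ u : V n, (univ.filter (fun i => f i = j ∧ u i = 1)).card =
        ∑ l, (univ.filter (fun i => (f i, g i) = (j, l) ∧ u i = 1)).card := by
      intro u
      rw [card_eq_sum_card_fiberwise (f := g) (t := univ) (fun _ _ => mem_univ _)]
      refine sum_congr rfl (fun l _ => ?_)
      rw [filter_filter]
      congr 1
      ext i
      simp only [mem_filter, mem_univ, true_and, Prod.mk.injEq]
      tauto
    rw [key, key]
    exact sum_congr rfl (fun l _ => h' (j, l))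
  have h2 : ∀ l, (univ.filter (fun i => g i = l ∧ y i = 1)).card =
      (univ.filter (fun i => g i = l ∧ y' i = 1)).card := by
    intro l
    have key : ∀ u : V n, (univ.filter (fun i => g i = l ∧ u i = 1)).card =
        ∑ j, (univ.filter (fun i => (f i, g i) = (j, l) ∧ u i = 1)).card := by
      intro u
      rw [card_eq_sum_card_fiberwise (f := f) (t := univ) (fun _ _ => mem_univ _)]
      refine sum_congr rfl (fun j _ => ?_)
      rw [filter_filter]
      congr 1
      ext i
      simp only [mem_filter, mem_univ, true_and, Prod.mk.injEq]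
      tauto
    rw [key, key]
    exact sum_congr rfl (fun j _ => h' (j, l))
  have e1 : (y ∈ S) = (y' ∈ S) :=
    propext ⟨hf y y' h1, hf y' y (fun j => (h1 j).symm)⟩
  have e2 : (y ∈ S') = (y' ∈ S') :=
    propext ⟨hg y y' h2, hg y' y (fun j => (h2 j).symm)⟩
  show Φ (y' ∈ S) (y' ∈ S')
  rw [← e1, ← e2]
  exact hy

/-- **Corner-free sets with block-symmetric lines.** Let `D ≥ 1`.
(1) Let `A ⊆ (F_2^n)^2` be corner-free and `n ≥ 64 D (k + 1) + 2`. Suppose that every row (or every
column, or every diagonal) of `A` contains `T` sets of the form `S ∩ C`, where `S` is block-symmetric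
with `D` classes and `C` has certificates of degree at most `k`; all of this may depend on the line.
Then at most `T n 4^n (exp (-(n-2)/(1024 D²)) + 4^(D²) exp (-(n-2)/(256 D²)))` points of `A` are in
one of these subsets of their line.
(2) So with `c = 1 / (4096 D²)` there is a constant `C = C(D)` such that `|A| ≤ C T 4^((1-c) n)` if
`k ≤ c n` and every point of `A` is in such a subset of its row, its column or its diagonal.
(3) Block-symmetric sets: sets decided by an additive statistic whose weights are constant on `D`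
classes of coordinates (with values in any abelian group); translates (`2 D` classes, in particular
everything that depends only on the distance from a given point has `2` classes); Boolean
combinations (products of the numbers of classes). -/
theorem result :
    (∀ (K : Type) [Field K] (n D k T : ℕ) (A Q : Finset (V n × V n)) (dir : Direction), 1 ≤ D →
      64 * D * (k + 1) + 2 ≤ n → CornerFree A → Covered K D k T A dir Q →
      (Q.card : ℝ) ≤ T * n * 4 ^ n * (Real.exp (-((n - 2) / (1024 * (D : ℝ) ^ 2))) +
        4 ^ (D ^ 2) * Real.exp (-((n - 2) / (256 * (D : ℝ) ^ 2))))) ∧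
    (∀ D : ℕ, 1 ≤ D → ∃ C : ℝ, 0 < C ∧ ∀ (K : Type) [Field K] (n k T : ℕ)
      (A : Finset (V n × V n)) (Q : Direction → Finset (V n × V n)),
      (k : ℝ) ≤ 1 / (4096 * (D : ℝ) ^ 2) * n → CornerFree A →
      (∀ dir, Covered K D k T A dir (Q dir)) → (∀ a ∈ A, ∃ dir, a ∈ Q dir) →
      (A.card : ℝ) ≤ C * T * (4 : ℝ) ^ ((1 - 1 / (4096 * (D : ℝ) ^ 2)) * (n : ℝ))) ∧
    (∀ (n D : ℕ) (H : Type) [AddCommMonoid H] (w : Fin n → H) (P : Set H) (f : Fin n → Fin D),
      (∀ i j, f i = f j → w i = w j) →
      BlockSymmetric D {y : V n | (∑ i, if y i = 1 then w i else 0) ∈ P}) ∧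
    (∀ (n D : ℕ) (S : Set (V n)) (c : V n), BlockSymmetric D S →
      BlockSymmetric (D * 2) {y : V n | y + c ∈ S}) ∧
    (∀ (n D E : ℕ) (S S' : Set (V n)) (Φ : Prop → Prop → Prop), BlockSymmetric D S →
      BlockSymmetric E S' → BlockSymmetric (D * E) {y : V n | Φ (y ∈ S) (y ∈ S')}) := by
  refine ⟨fun K _ n D k T A Q dir hD hn hA h => explicit K hD k T hn A hA dir Q h, ?_,
    fun n D H _ w P f hf => additive n D H w P f hf, translate, combine⟩
  intro D hD
  obtain ⟨C, hC⟩ : ∃ C : ℝ, C = (1 + 4 ^ (D ^ 2)) * (2048 * (D : ℝ) ^ 2 * Real.exp 1) + 4 :=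
    ⟨_, rfl⟩
  refine ⟨3 * C, by rw [hC]; positivity, ?_⟩
  intro K _ n k T A Q hk hA hQ hcov
  classical
  have h1 : ∀ dir, ((Q dir).card : ℝ) ≤
      C * T * (4 : ℝ) ^ ((1 - 1 / (4096 * (D : ℝ) ^ 2)) * (n : ℝ)) := by
    intro dir
    rw [hC]
    exact saving D hD K k T hk A hA dir (Q dir) (hQ dir)
  have h2 : A ⊆ (Q .row ∪ Q .column) ∪ Q .diagonal := by
    intro a ha
    obtain ⟨dir, hd⟩ := hcov a ha
    rw [mem_union, mem_union]
    cases dir with
    | row => exact Or.inl (Or.inl hd)
    | column => exact Or.inl (Or.inr hd)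
    | diagonal => exact Or.inr hd
  have h3 : A.card ≤ (Q .row).card + (Q .column).card + (Q .diagonal).card :=
    (card_le_card h2).trans ((card_union_le _ _).trans
      (Nat.add_le_add_right (card_union_le _ _) _))
  have h4 : (A.card : ℝ) ≤ (Q .row).card + (Q .column).card + (Q .diagonal).card := by
    exact_mod_cast h3
  have h5 := h1 .row
  have h6 := h1 .column
  have h7 := h1 .diagonal
  calc (A.card : ℝ) ≤ (Q .row).card + (Q .column).card + (Q .diagonal).card := h4
    _ ≤ C * T * (4 : ℝ) ^ ((1 - 1 / (4096 * (D : ℝ) ^ 2)) * (n : ℝ)) +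
        C * T * (4 : ℝ) ^ ((1 - 1 / (4096 * (D : ℝ) ^ 2)) * (n : ℝ)) +
        C * T * (4 : ℝ) ^ ((1 - 1 / (4096 * (D : ℝ) ^ 2)) * (n : ℝ)) :=
        add_le_add (add_le_add h5 h6) h7
    _ = _ := by ring

end Pool.Agent.Results.MP_db4732_co.BlockSymmetricLines
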