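import Mathlib
import Pool.Agent.L0h67.CV.Main

/-!
Corner-free subsets of `F_2^n × F_2^n` all of whose rows (or columns, or diagonals) have small
approximate spectral norm, or are decided by few weighted votes (threshold gates with margin) of
constant-depth circuits with AND, OR, NOT and `MOD p` gates.

The starting file `CircuitLines` is the case without a vote. The proof follows its scheme (row space
bound, an approximating polynomial, and a polynomial of degree about `n / 2 - a` which vanishes on the
error set). New: the approximating polynomial for a vote of total weight `M` and values of size at
most `R`. We draw `m` of the voters at random, with probabilities proportional to the weights, each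
with its random Razborov-Smolensky polynomial. Outside of a set of `2 ^ (n + 1) exp (- m / (16 M^2))`
points, the number of true voters in the sample is on the right side of `m / 2` and at a distance of
at most `m R / M` from it, and on a window of `w` consecutive integers every function of this number
is, without denominators, a polynomial of degree at most `w` in the voters. So the degree is
`2 m R / M` times the degree of a voter, and not `m` times this degree; only for this reason `m` can
be a small multiple of `n`, which gives the exponent `n / M^2`.
-/

set_option autoImplicit false

namespace Pool.Agent.Results.MP_db4732_co.VotingLines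

open Pool.Agent.W856.Corner Pool.Agent.L0h67.CV

/-- Let `A` be a corner-free subset of `(F_2^n)^2`, let `p` be a prime and `k ≥ 1`.

1. Let every row (or every column, or every diagonal) of `A`, or `A` itself, be a union of `T` sets
whose indicator functions are approximated everywhere, up to `1 / 3`, by real linear combinations of
phases `(-1) ^ f`, `f` of degree at most `k` over `Z/p`, with coefficients of total absolute value at
most `M` (for `p = 2`, `k = 1`: sets of approximate spectral norm at most `M`). Then
`|A| ≤ 10^13 T (k M)^3 4^n exp (- n / (10^12 (k M)^2))`.

2. Let every row (or every column, or every diagonal) of `A`, or `A` itself, be a union of `T` sets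
each of which is determined by the outcomes of `l` weighted votes of sets computed by circuits with
at most `s` AND and OR gates and depth at most `d`, in which all the `MOD p` gates and all the
functions of degree at most `k` over `Z/p` are free. The weights of every vote are real numbers with
total absolute value at most `M`, and the absolute value of the result is between `1` and `R` at every
point. Then `|A| ≤ 10^8 T Q^3 4^n exp (- n / (10^8 Q^2))` with
`Q = l M R k ((p - 1) (⌈log_2 s⌉ + ⌈log_2 M⌉ + 3))^d`. -/
theorem result (p k T n : ℕ) (hp : p.Prime) (hk : 1 ≤ k) (A : Finset (V n × V n))
    (hA : CornerFree A) :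
    (∀ M : ℕ, 1 ≤ M → LinesOrSelf (fun _ S => ApproxNorm p k M S) T A →
      (A.card : ℝ) ≤ 10 ^ 13 * T * ((k : ℝ) * M) ^ 3 * 4 ^ n *
        Real.exp (-(n : ℝ) / (10 ^ 12 * ((k : ℝ) * M) ^ 2))) ∧
    (∀ s d l M R : ℕ, 1 ≤ l → 1 ≤ M → 1 ≤ R →
      LinesOrSelf (fun _ S => Decided p k s d l M R S) T A →
      (A.card : ℝ) ≤ 10 ^ 8 * T * (loss p k s d l M R : ℝ) ^ 3 * 4 ^ n *
        Real.exp (-(n : ℝ) / (10 ^ 8 * (loss p k s d l M R : ℝ) ^ 2))) :=
  ⟨fun _ hM h => main_norm hp hk hM A hA T h,
    fun _ _ _ _ _ hl hM hR h => main_decided hp hk hl hM hR A hA T h⟩

end Pool.Agent.Results.MP_db4732_co.VotingLines
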